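import Pool.Agent.W_d33b62f_h37.Fin

/-!
# Gaps at most one million between the primes of every prime component
-/

set_option autoImplicit false

open Pool.Agent.Wd33b62

/-- For every prime component `K` of every primitive integral Apollonian packing there are infinitely many pairs of
primes `p < q` in `S(K)` with `q - p ≤ 10 ^ 6`. -/
theorem Pool.Agent.Results.MP_d33b62_nt.BoundedGaps.result :
    ∀ v : Fin 4 → GC, IsDescartes v → IsIntegral v → IsPrimitive v →
      ∀ C ∈ packing v, OddPrimeCurv C →
        {x : ℕ × ℕ | x.1.Prime ∧ x.2.Prime ∧ x.1 ∈ curvs v C ∧ x.2 ∈ curvs v C ∧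
          x.1 < x.2 ∧ x.2 ≤ x.1 + 10 ^ 6}.Infinite :=
  fun v h1 h2 h3 C hC hC2 => Pool.Agent.W33f.pairs_infinite v h1 h2 h3 C hC hC2
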